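import Pool.Agent.Helper43.GD.St

/-! Project GD (MP_b3ce06_al), module GNS: elements which generate the ring. -/

set_option autoImplicit false

namespace Pool.Agent.Helper24.GD

open Pool.Agent.Helper43.GD

theorem gns_all {L : Type} [CommRing L] {M : ℕ} {x : Lˣ} (h : Rg L M x) (N : AddSubgroup L)
    (h1 : (1 : L) ∈ N) (hx : (x : L) ∈ N) : ∀ y, y ∈ N := by
  intro y
  obtain ⟨m, n, rfl⟩ := h.span y
  apply N.add_mem
  · have := N.zsmul_mem h1 m
    rwa [zsmul_one] at this
  · have := N.zsmul_mem hx n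
    rwa [zsmul_eq_mul] at this

theorem gns_unit {L : Type} [CommRing L] [Finite L] (x : L) (B : ℤ) (hB : IsUnit (B : L))
    (N : AddSubgroup L) (hx : (B : L) * x ∈ N) : x ∈ N := by
  obtain ⟨b, hb⟩ := hB
  have hk : 0 < orderOf b := orderOf_pos b
  have h1 : (B : L) ^ (orderOf b) = 1 := by
    rw [← hb, ← Units.val_pow_eq_pow_val, pow_orderOf_eq_one, Units.val_one]
  have h2 : x = (B ^ (orderOf b - 1) : ℤ) • ((B : L) * x) := by
    rw [zsmul_eq_mul, ← mul_assoc, Int.cast_pow, ← pow_succ, Nat.sub_add_cancel hk, h1, one_mul]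
  rw [h2]
  exact N.zsmul_mem hx _

theorem gns_ex {L : Type} [CommRing L] (x y : L) (hx : x ^ 2 + x = 1) (hy : y ^ 2 + y = 1) (n : ℕ) :
    ∃ A B : ℤ, x ^ n = (A : L) + (B : L) * x ∧ y ^ n = (A : L) + (B : L) * y := by
  induction n with
  | zero => exact ⟨1, 0, by simp, by simp⟩
  | succ n ih =>
    obtain ⟨A, B, h1, h2⟩ := ih
    refine ⟨B, A - B, ?_, ?_⟩
    · rw [pow_succ, h1]; push_cast; linear_combination (B : L) * hx
    · rw [pow_succ, h2]; push_cast; linear_combination (B : L) * hy

theorem hGNS : StGNS := by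
  intro L _ M x h
  have hfin : Finite L := h.fin
  have hg := h.gold
  refine ⟨?_, ?_, ?_, ?_, ?_⟩
  · intro N h1 hs
    apply gns_all h N h1
    have := hs 1 h1
    rwa [mul_one] at this
  · intro N h1 hs
    apply gns_all h N h1
    have h2 := hs 1 h1
    have h3 : (x : L) = 1 - (((x ^ 2 : Lˣ) : L) * 1) := by
      push_cast
      linear_combination hg
    rw [h3]
    exact N.sub_mem h1 h2
  · intro N h1 hs
    apply gns_all h N h1
    have h2 := hs 1 h1
    apply gns_unit (x : L) 2 (by exact_mod_cast h.two) N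
    have h3 : ((2 : ℤ) : L) * (x : L) = (((x ^ 3 : Lˣ) : L) * 1) + 1 := by
      push_cast
      linear_combination (1 - (x : L)) * hg
    rw [h3]
    exact N.add_mem h2 h1
  · have h4 := h.four
    have h5 : M / 2 * 2 = M := by omega
    rw [Units.val_pow_eq_pow_val, ← pow_mul, h5, h.xM]
  · intro N h1 hs
    apply gns_all h N h1
    have h2 := hs 1 h1
    have h4 := h.four
    have h5 : M / 2 * 2 = M := by omega
    have hev : Even (M / 2) := by
      obtain ⟨k, hk⟩ := h4
      exact ⟨k, by omega⟩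
    have hi : ((x : L) ^ (M / 2)) ^ 2 = -1 := by
      rw [← pow_mul, h5, h.xM]
    have hy : (-1 - (x : L)) ^ 2 + (-1 - (x : L)) = 1 := by linear_combination hg
    obtain ⟨A, B, hA, hB⟩ := gns_ex (x : L) (-1 - (x : L)) hg hy (M / 2)
    have hxy : (x : L) ^ (M / 2) * (-1 - (x : L)) ^ (M / 2) = 1 := by
      rw [← mul_pow]
      have : (x : L) * (-1 - (x : L)) = -1 := by linear_combination -hg
      rw [this, hev.neg_one_pow]
    have hyi : (-1 - (x : L)) ^ (M / 2) = -((x : L) ^ (M / 2)) := by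
      have hu : IsUnit ((x : L) ^ (M / 2)) := x.isUnit.pow _
      apply hu.mul_left_cancel
      rw [hxy]
      linear_combination hi
    have hBu : IsUnit (B : L) := by
      have h6 : (B : L) * (2 * (x : L) + 1) = 2 * (x : L) ^ (M / 2) := by
        rw [hyi] at hB
        linear_combination hB - hA
      have h7 : IsUnit ((B : L) * (2 * (x : L) + 1)) := by
        rw [h6]
        exact h.two.mul (x.isUnit.pow _)
      exact isUnit_of_mul_isUnit_left h7
    apply gns_unit (x : L) B hBu N
    have h8 : (B : L) * (x : L) = (((x ^ (M / 2) : Lˣ) : L) * 1) - (A : ℤ) • (1 : L) := by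
      rw [zsmul_one, Units.val_pow_eq_pow_val]
      linear_combination -hA
    rw [h8]
    exact N.sub_mem h2 (N.zsmul_mem h1 A)

end Pool.Agent.Helper24.GD
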